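import Pool.Agent.H.MP_df1c3e_lc.Auto
import Pool.Agent.H.MP_df1c3e_lc.Red
import Pool.Agent.H.MP_df1c3e_lc.Assembly
import Pool.Agent.H.MP_df1c3e_lc.CtxZero
import Pool.Agent.H.MP_df1c3e_lc.CtxP

/-!
The eigenvalue criterion for polynomially ambiguous weighted automata.
-/

namespace Pool.Agent.Results.MP_df1c3e_lc.PolyAmbiguity

open Pool.Agent.H.MP_df1c3e_lc

universe u v

/-- Let `A` be a weighted automaton over a field `K` with a finite alphabet.  If all eigenvalues
(in the algebraic closure) of all matrices `M(w)` lie in a finitely generated multiplicative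
semigroup `G` with `α ^ N ∈ K` for all `α ∈ G`, for some `N ≥ 1`, then the function of `A` is
recognised by a polynomially ambiguous weighted automaton over `K`. -/
theorem result (K : Type u) [Field K] (σ : Type v) [Finite σ] (A : WA K σ)
    (G : Subsemigroup (AlgebraicClosure K))
    (hG : ∃ S : Finset (AlgebraicClosure K),
      Subsemigroup.closure (S : Set (AlgebraicClosure K)) = G)
    (N : ℕ) (hN : 1 ≤ N)
    (hi : ∀ (w : List σ) (μ : AlgebraicClosure K),
      (∃ v : Fin A.d → AlgebraicClosure K, v ≠ 0 ∧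
        ((A.mat w).map (algebraMap K (AlgebraicClosure K))).mulVec v = μ • v) → μ ∈ G)
    (hii : ∀ α ∈ G, ∃ b : K, algebraMap K (AlgebraicClosure K) b = α ^ N) :
    ∃ B : WA K σ, B.PolyAmbiguous ∧ ∀ w : List σ, B.value w = A.value w := by
  obtain ⟨S, rfl⟩ := hG
  refine reduce A S hi hN hii ?_
  intro L _ _ _ K₁ _ _ G' hG' n ρ h1 h2
  rcases CharP.exists' L with hz | ⟨p, hp, hc⟩
  · exact all_mem (hasCtx_zero L) hG' hN n (Fin n → L) (Module.finrank_fin_fun L) ρ h1 h2
  · exact all_mem (hasCtx_p p L) hG' hN n (Fin n → L) (Module.finrank_fin_fun L) ρ h1 h2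

end Pool.Agent.Results.MP_df1c3e_lc.PolyAmbiguity
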